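import Pool.Agent.Helper23.KU.ZDefs

/-!
# KU, stage Z, piece Z5

A rational function on the disc with nonnegative real part and no mass points on the
circle is bounded.
-/

set_option autoImplicit false

namespace Pool.Agent.Helper23.KU

open Polynomial Filter Topology Metric MeasureTheory Set
open Pool.Agent.Helper23.KB (Sph Dom KF Ext sq)

theorem z5_path_lim {A : ℂ → ℂ} (hA0 : ∀ z ∈ ball (0 : ℂ) 1, 0 ≤ (A z).re)
    (hg : ∀ ε > 0, ∃ r < 1, ∀ z : ℂ, r ≤ ‖z‖ → ‖z‖ < 1 → (1 - ‖z‖) * (A z).re ≤ ε)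
    {ζ : ℂ} (hζ : ‖ζ‖ = 1) {m : ℕ} (hm : 0 < m) {p q : ℂ[X]} (hp : p.eval ζ ≠ 0)
    (hpq : ∀ z ∈ ball (0 : ℂ) 1, (z - ζ) ^ m * p.eval z * A z = q.eval z)
    {w : ℂ} (hw : 0 < w.re) :
    (q.eval ζ / ((-ζ * w) ^ m * p.eval ζ)).re = 0 := by
  have hw0 : w ≠ 0 := by rintro rfl; simp at hw
  have hζ0 : ζ ≠ 0 := by rintro rfl; simp at hζ
  have hzw : (-ζ * w) ^ m ≠ 0 := pow_ne_zero _ (mul_ne_zero (neg_ne_zero.2 hζ0) hw0)
  set Z : ℝ → ℂ := fun t => ζ * (1 - (t : ℂ) * w) with hZ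
  have hZc : Tendsto Z (𝓝[>] 0) (𝓝 ζ) := by
    have h1 : Continuous Z := by fun_prop
    have h := h1.tendsto 0
    have h2 : Z 0 = ζ := by simp [hZ]
    rw [h2] at h
    exact h.mono_left nhdsWithin_le_nhds
  have hn : ∀ t : ℝ, ‖Z t‖ ^ 2 = 1 - 2 * t * w.re + t ^ 2 * ‖w‖ ^ 2 := by
    intro t
    have h1 : ‖Z t‖ = ‖1 - (t : ℂ) * w‖ := by simp [hZ, hζ]
    rw [h1, ← Complex.normSq_eq_norm_sq, ← Complex.normSq_eq_norm_sq, Complex.normSq_apply,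
      Complex.normSq_apply]
    simp
    ring
  have he : ∀ᶠ t in 𝓝[>] (0:ℝ), 0 < t ∧ t < 1 ∧ t * ‖w‖ ^ 2 < w.re := by
    have h1 : ∀ᶠ t in 𝓝[>] (0:ℝ), 0 < t := self_mem_nhdsWithin
    have h2 : ∀ᶠ t in 𝓝[>] (0:ℝ), t < 1 :=
      nhdsWithin_le_nhds (Iio_mem_nhds one_pos)
    have h3 : ∀ᶠ t in 𝓝[>] (0:ℝ), t * ‖w‖ ^ 2 < w.re := by
      have h4 : Tendsto (fun t : ℝ => t * ‖w‖ ^ 2) (𝓝[>] 0) (𝓝 (0 * ‖w‖ ^ 2)) :=
        ((continuous_id.mul continuous_const).tendsto 0).mono_left nhdsWithin_le_nhds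
      rw [zero_mul] at h4
      exact h4.eventually_lt_const hw
    filter_upwards [h1, h2, h3] with t a b c using ⟨a, b, c⟩
  have hlt : ∀ t : ℝ, 0 < t → t * ‖w‖ ^ 2 < w.re →
      ‖Z t‖ < 1 ∧ t * w.re ≤ 2 * (1 - ‖Z t‖) := by
    intro t ht htw
    have h := hn t
    have h0 := mul_pos ht hw
    have h1 : ‖Z t‖ ^ 2 < 1 - t * w.re := by nlinarith
    have h2 : ‖Z t‖ < 1 := by
      by_contra hc
      push Not at hc
      nlinarith
    refine ⟨h2, ?_⟩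
    nlinarith [norm_nonneg (Z t)]
  have hlim : Tendsto (fun t : ℝ => ((t : ℂ) ^ m * A (Z t)).re) (𝓝[>] 0)
      (𝓝 (q.eval ζ / ((-ζ * w) ^ m * p.eval ζ)).re) := by
    refine (Complex.continuous_re.tendsto _).comp ?_
    have h1 : Tendsto (fun t => q.eval (Z t) / ((-ζ * w) ^ m * p.eval (Z t))) (𝓝[>] 0)
        (𝓝 (q.eval ζ / ((-ζ * w) ^ m * p.eval ζ))) := by
      apply Tendsto.div
      · exact (q.continuous.tendsto _).comp hZc
      · exact tendsto_const_nhds.mul ((p.continuous.tendsto _).comp hZc)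
      · exact mul_ne_zero hzw hp
    refine h1.congr' ?_
    have hpe : ∀ᶠ t in 𝓝[>] (0:ℝ), p.eval (Z t) ≠ 0 :=
      ((p.continuous.tendsto _).comp hZc).eventually_ne hp
    filter_upwards [he, hpe] with t ht hpt
    obtain ⟨ht, ht1, htw⟩ := ht
    have hz := (hlt t ht htw).1
    have h := hpq (Z t) (by simpa using hz)
    have hsub : Z t - ζ = (t : ℂ) * (-ζ * w) := by simp [hZ]; ring
    rw [← h, hsub, mul_pow]
    field_simp
  have hre : ∀ t : ℝ, ((t : ℂ) ^ m * A (Z t)).re = t ^ m * (A (Z t)).re := by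
    intro t
    rw [← Complex.ofReal_pow, Complex.re_ofReal_mul]
  apply le_antisymm
  · apply le_of_forall_pos_le_add
    intro ε hε
    obtain ⟨r, hr1, hr⟩ := hg (ε * w.re / 2) (by positivity)
    have hZn : ∀ᶠ t in 𝓝[>] (0:ℝ), r < ‖Z t‖ := by
      have h1 := hZc.norm
      rw [hζ] at h1
      exact h1.eventually_const_lt hr1
    rw [zero_add]
    apply le_of_tendsto hlim
    filter_upwards [he, hZn] with t ht hrt
    obtain ⟨ht, ht1, htw⟩ := ht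
    obtain ⟨hz, hz2⟩ := hlt t ht htw
    have h := hr (Z t) hrt.le hz
    have hA := hA0 (Z t) (by simpa using hz)
    rw [hre]
    have h3 : t ^ m ≤ t := pow_le_of_le_one ht.le ht1.le hm.ne'
    have h4 : t * w.re * (A (Z t)).re ≤ 2 * (1 - ‖Z t‖) * (A (Z t)).re :=
      mul_le_mul_of_nonneg_right hz2 hA
    have h5 : t * (A (Z t)).re * w.re ≤ ε * w.re := by nlinarith
    exact (mul_le_mul_of_nonneg_right h3 hA).trans (le_of_mul_le_mul_right h5 hw)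
  · apply ge_of_tendsto hlim
    filter_upwards [he] with t ht
    obtain ⟨ht, ht1, htw⟩ := ht
    obtain ⟨hz, hz2⟩ := hlt t ht htw
    have hA := hA0 (Z t) (by simpa using hz)
    rw [hre]
    positivity

theorem z5_no_pole {A : ℂ → ℂ} (hA0 : ∀ z ∈ ball (0 : ℂ) 1, 0 ≤ (A z).re)
    (hg : ∀ ε > 0, ∃ r < 1, ∀ z : ℂ, r ≤ ‖z‖ → ‖z‖ < 1 → (1 - ‖z‖) * (A z).re ≤ ε)
    {ζ : ℂ} (hζ : ‖ζ‖ = 1) {m : ℕ} (hm : 0 < m) {p q : ℂ[X]} (hp : p.eval ζ ≠ 0)
    (hq : q.eval ζ ≠ 0)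
    (hpq : ∀ z ∈ ball (0 : ℂ) 1, (z - ζ) ^ m * p.eval z * A z = q.eval z) : False := by
  have hζ0 : ζ ≠ 0 := by rintro rfl; simp at hζ
  have hm0 : (m : ℝ) ≠ 0 := by exact_mod_cast hm.ne'
  have hm1 : (1 : ℝ) ≤ m := by exact_mod_cast hm
  have hpos : 0 < (Complex.exp (((Real.pi / 4 / m : ℝ) : ℂ) * Complex.I)).re := by
    rw [Complex.exp_ofReal_mul_I_re]
    apply Real.cos_pos_of_mem_Ioo
    have h1 : 0 < Real.pi / 4 / m := by positivity
    have h2 : Real.pi / 4 / m ≤ Real.pi / 4 := div_le_self (by positivity) hm1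
    constructor <;> linarith [Real.pi_pos]
  have h1 := z5_path_lim hA0 hg hζ hm hp hpq (w := 1) (by simp)
  have h2 := z5_path_lim hA0 hg hζ hm hp hpq hpos
  obtain ⟨κ, hκ⟩ : ∃ κ : ℂ, κ = q.eval ζ / ((-ζ) ^ m * p.eval ζ) := ⟨_, rfl⟩
  have hκ0 : κ ≠ 0 := by
    rw [hκ]
    exact div_ne_zero hq (mul_ne_zero (pow_ne_zero _ (neg_ne_zero.2 hζ0)) hp)
  have e1 : q.eval ζ / ((-ζ * 1) ^ m * p.eval ζ) = κ := by rw [mul_one, hκ]
  have e2 : q.eval ζ / ((-ζ * Complex.exp (((Real.pi / 4 / m : ℝ) : ℂ) * Complex.I)) ^ m *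
      p.eval ζ) = κ * Complex.exp (((-(Real.pi / 4) : ℝ) : ℂ) * Complex.I) := by
    rw [mul_pow, ← Complex.exp_nat_mul, hκ]
    have h3 : (m : ℂ) * (((Real.pi / 4 / m : ℝ) : ℂ) * Complex.I) =
        -(((-(Real.pi / 4) : ℝ) : ℂ) * Complex.I) := by
      have h4 : (m : ℂ) ≠ 0 := by exact_mod_cast hm.ne'
      push_cast
      field_simp
    rw [h3, Complex.exp_neg]
    have h5 := Complex.exp_ne_zero (((-(Real.pi / 4) : ℝ) : ℂ) * Complex.I)
    have h6 : (-ζ) ^ m ≠ 0 := pow_ne_zero _ (neg_ne_zero.2 hζ0)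
    field_simp
  rw [e1] at h1
  rw [e2, Complex.mul_re, Complex.exp_ofReal_mul_I_re, Complex.exp_ofReal_mul_I_im, h1,
    Real.sin_neg, Real.sin_pi_div_four] at h2
  have h7 : κ.im = 0 := by
    have h8 : (0 : ℝ) < √2 / 2 := by positivity
    have h9 : κ.im * (√2 / 2) = 0 := by linarith
    exact (mul_eq_zero.1 h9).resolve_right h8.ne'
  exact hκ0 (Complex.ext h1 h7)

theorem z5_local_bdd {A : ℂ → ℂ} (hA : DifferentiableOn ℂ A (ball 0 1))
    (hA0 : ∀ z ∈ ball (0 : ℂ) 1, 0 ≤ (A z).re) {p q : ℂ[X]} (hp : p ≠ 0)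
    (hpq : ∀ z ∈ ball (0 : ℂ) 1, p.eval z * A z = q.eval z)
    (hg : ∀ ε > 0, ∃ r < 1, ∀ z : ℂ, r ≤ ‖z‖ → ‖z‖ < 1 → (1 - ‖z‖) * (A z).re ≤ ε)
    {ζ : ℂ} (hζ : ‖ζ‖ ≤ 1) :
    ∃ M : ℝ, ∀ᶠ z in 𝓝 ζ, z ∈ ball (0 : ℂ) 1 → (A z).re ≤ M := by
  rcases hζ.lt_or_eq with hlt | heq
  · have hb : ball (0 : ℂ) 1 ∈ 𝓝 ζ := isOpen_ball.mem_nhds (by simpa using hlt)
    have hc : ContinuousAt A ζ := (hA.differentiableAt hb).continuousAt
    have h1 : Tendsto (fun z => (A z).re) (𝓝 ζ) (𝓝 (A ζ).re) :=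
      (Complex.continuous_re.tendsto _).comp hc
    refine ⟨(A ζ).re + 1, ?_⟩
    filter_upwards [h1.eventually_lt_const (lt_add_one _)] with z hz _
    exact hz.le
  · -- the divided pair
    have key : ∃ p1 q1 : ℂ[X], p1.eval ζ ≠ 0 ∧
        ∀ z ∈ ball (0 : ℂ) 1, p1.eval z * A z = q1.eval z := by
      obtain ⟨p1, hp1, hp1'⟩ := exists_eq_pow_rootMultiplicity_mul_and_not_dvd p hp ζ
      have hp1e : p1.eval ζ ≠ 0 := fun h => hp1' (dvd_iff_isRoot.2 h)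
      have hzne : ∀ z ∈ ball (0 : ℂ) 1, z - ζ ≠ 0 := by
        intro z hz h
        rw [sub_eq_zero] at h
        rw [h, mem_ball_zero_iff, heq] at hz
        exact lt_irrefl _ hz
      by_cases hdvd : (X - C ζ) ^ (p.rootMultiplicity ζ) ∣ q
      · obtain ⟨q1, hq1⟩ := hdvd
        refine ⟨p1, q1, hp1e, fun z hz => ?_⟩
        have h := hpq z hz
        rw [hp1, hq1, eval_mul, eval_mul, eval_pow, eval_sub, eval_X, eval_C, mul_assoc] at h
        exact mul_left_cancel₀ (pow_ne_zero _ (hzne z hz)) h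
      · exfalso
        have hq0 : q ≠ 0 := by
          rintro rfl
          exact hdvd (dvd_zero _)
        obtain ⟨q1, hq1, hq1'⟩ := exists_eq_pow_rootMultiplicity_mul_and_not_dvd q hq0 ζ
        have hq1e : q1.eval ζ ≠ 0 := fun h => hq1' (dvd_iff_isRoot.2 h)
        have hlt : q.rootMultiplicity ζ < p.rootMultiplicity ζ := by
          by_contra hc
          push Not at hc
          exact hdvd (dvd_trans (pow_dvd_pow _ hc) (Dvd.intro _ hq1.symm))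
        obtain ⟨m, hm⟩ := Nat.exists_eq_add_of_lt hlt
        refine z5_no_pole hA0 hg heq (m := m + 1) (Nat.succ_pos _) hp1e hq1e fun z hz => ?_
        have h := hpq z hz
        rw [hp1, hq1, hm] at h
        rw [eval_mul, eval_mul, eval_pow, eval_pow, eval_sub, eval_X, eval_C, add_assoc, pow_add,
          mul_assoc, mul_assoc] at h
        have h2 := mul_left_cancel₀ (pow_ne_zero _ (hzne z hz)) h
        rw [← h2]
        ring
    obtain ⟨p1, q1, hp1, h1⟩ := key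
    have h2 : Tendsto (fun z => (q1.eval z / p1.eval z).re) (𝓝 ζ)
        (𝓝 (q1.eval ζ / p1.eval ζ).re) :=
      (Complex.continuous_re.tendsto _).comp
        ((q1.continuous.tendsto _).div (p1.continuous.tendsto _) hp1)
    have h3 : ∀ᶠ z in 𝓝 ζ, p1.eval z ≠ 0 := (p1.continuous.tendsto _).eventually_ne hp1
    refine ⟨(q1.eval ζ / p1.eval ζ).re + 1, ?_⟩
    filter_upwards [h2.eventually_lt_const (lt_add_one _), h3] with z hz hz3 hzb
    have h4 : A z = q1.eval z / p1.eval z := by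
      rw [eq_div_iff hz3, mul_comm]
      exact h1 z hzb
    rw [h4]
    exact hz.le

theorem bounded_of_rat {A : ℂ → ℂ} (hA : DifferentiableOn ℂ A (ball 0 1))
    (hA0 : ∀ z ∈ ball (0 : ℂ) 1, 0 ≤ (A z).re) {p q : ℂ[X]} (hp : p ≠ 0)
    (hpq : ∀ z ∈ ball (0 : ℂ) 1, p.eval z * A z = q.eval z)
    (hg : ∀ ε > 0, ∃ r < 1, ∀ z : ℂ, r ≤ ‖z‖ → ‖z‖ < 1 → (1 - ‖z‖) * (A z).re ≤ ε) :
    ∃ M : ℝ, ∀ z ∈ ball (0 : ℂ) 1, (A z).re ≤ M := by
  have hcomp : IsCompact (closedBall (0 : ℂ) 1) := isCompact_closedBall 0 1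
  have h := hcomp.induction_on (p := fun s => ∃ M : ℝ, ∀ z ∈ s, z ∈ ball (0 : ℂ) 1 → (A z).re ≤ M)
    ⟨0, by simp⟩
    (fun s t hst ⟨M, hM⟩ => ⟨M, fun z hz => hM z (hst hz)⟩)
    (fun s t ⟨M, hM⟩ ⟨N, hN⟩ => ⟨max M N, fun z hz hzb => by
      rcases hz with hz | hz
      · exact (hM z hz hzb).trans (le_max_left _ _)
      · exact (hN z hz hzb).trans (le_max_right _ _)⟩)
    (fun ζ hζ => by
      obtain ⟨M, hM⟩ := z5_local_bdd hA hA0 hp hpq hg (ζ := ζ) (by simpa using hζ)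
      exact ⟨_, mem_nhdsWithin_of_mem_nhds hM, M, fun z hz => hz⟩)
  obtain ⟨M, hM⟩ := h
  exact ⟨M, fun z hz => hM z (ball_subset_closedBall hz) hz⟩

end Pool.Agent.Helper23.KU
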