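import Pool.Agent.Helper23.KU.Defs

/-!
KU, F1: the inner product with a derivative depends on `a * rv d a` only.
-/

set_option autoImplicit false

namespace Pool.Agent.Helper23.KU

open Polynomial

private lemma coeff_rv {d : ℕ} {a : ℂ[X]} (ha : a.natDegree ≤ d) {s n : ℕ} :
    (rv d a * monomial n (1 : ℂ)).coeff (d + s + 1) =
      if s < n then (starRingEnd ℂ) (a.coeff (n - 1 - s)) else 0 := by
  rw [Polynomial.monomial_one_right_eq_X_pow, Polynomial.coeff_mul_X_pow']
  unfold rv
  split_ifs with h1 h2 h2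
  · rw [Polynomial.coeff_reflect, Polynomial.revAt_le (by omega), Polynomial.coeff_map]
    congr 2
    omega
  · rw [Polynomial.coeff_reflect, Polynomial.coeff_map]
    have h3 : d < d + s + 1 - n := by omega
    have h4 : (Polynomial.revAt d) (d + s + 1 - n) = d + s + 1 - n := by
      unfold Polynomial.revAt
      simp [not_le.2 h3]
    rw [h4, Polynomial.coeff_eq_zero_of_natDegree_lt (by omega), map_zero]
  · rw [Polynomial.coeff_eq_zero_of_natDegree_lt (by omega), map_zero]
  · rfl

private lemma key {d : ℕ} {a : ℂ[X]} (ha : a.natDegree ≤ d) (X : PowerSeries ℂ) (M n : ℕ)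
    (hn : n ≤ M) :
    ip ((a : PowerSeries ℂ) * X) (derivative (monomial n (1 : ℂ))) =
      ∑ s ∈ Finset.range M, (starRingEnd ℂ) (PowerSeries.coeff s X) *
        (rv d a * monomial n (1 : ℂ)).coeff (d + s + 1) := by
  simp only [coeff_rv ha]
  rw [Polynomial.derivative_monomial, ip_monomial]
  rcases Nat.eq_zero_or_pos n with h0 | h0
  · subst h0
    simp
  · obtain ⟨k, rfl⟩ : ∃ k, n = k + 1 := ⟨n - 1, by omega⟩
    have e1 : ∑ s ∈ Finset.range M, (starRingEnd ℂ) (PowerSeries.coeff s X) *
        (if s < k + 1 then (starRingEnd ℂ) (a.coeff (k + 1 - 1 - s)) else 0) =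
        ∑ s ∈ Finset.range (k + 1), (starRingEnd ℂ) (PowerSeries.coeff s X) *
          (starRingEnd ℂ) (a.coeff (k - s)) := by
      symm
      rw [← Finset.sum_subset (Finset.range_subset_range.2 hn)]
      · refine Finset.sum_congr rfl fun s hs => ?_
        rw [if_pos (Finset.mem_range.1 hs)]
        rfl
      · intro s _ hs
        rw [if_neg (fun h => hs (Finset.mem_range.2 h)), mul_zero]
    rw [e1]
    have hk : ((k : ℂ) + 1) ≠ 0 := by exact_mod_cast Nat.succ_ne_zero k
    have e2 : PowerSeries.coeff k ((a : PowerSeries ℂ) * X) =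
        ∑ s ∈ Finset.range (k + 1), PowerSeries.coeff s X * a.coeff (k - s) := by
      rw [mul_comm, PowerSeries.coeff_mul, Finset.Nat.sum_antidiagonal_eq_sum_range_succ_mk]
      simp only [Polynomial.coeff_coe]
    rw [Nat.add_sub_cancel, e2, map_sum]
    simp only [map_mul]
    push_cast
    field_simp

private lemma expand {d : ℕ} {a : ℂ[X]} (ha : a.natDegree ≤ d) (X : PowerSeries ℂ) {Q : ℂ[X]}
    {M : ℕ} (hQ : Q.natDegree ≤ M) :
    ip ((a : PowerSeries ℂ) * X) (derivative Q) =
      ∑ s ∈ Finset.range M, (starRingEnd ℂ) (PowerSeries.coeff s X) *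
        (rv d a * Q).coeff (d + s + 1) := by
  have e1 : Q = ∑ n ∈ Finset.range (M + 1), Q.coeff n • monomial n (1 : ℂ) := by
    conv_lhs => rw [Q.as_sum_range' (M + 1) (Nat.lt_succ_of_le hQ)]
    refine Finset.sum_congr rfl fun n _ => ?_
    rw [Polynomial.smul_monomial, smul_eq_mul, mul_one]
  have e2 : derivative Q = ∑ n ∈ Finset.range (M + 1),
      Q.coeff n • derivative (monomial n (1 : ℂ)) := by
    conv_lhs => rw [e1]
    rw [Polynomial.derivative_sum]
    exact Finset.sum_congr rfl fun n _ => Polynomial.derivative_smul _ _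
  have e3 : ∀ s, (rv d a * Q).coeff (d + s + 1) = ∑ n ∈ Finset.range (M + 1),
      Q.coeff n * (rv d a * monomial n (1 : ℂ)).coeff (d + s + 1) := by
    intro s
    conv_lhs => rw [e1]
    rw [Finset.mul_sum, Polynomial.finsetSum_coeff]
    refine Finset.sum_congr rfl fun n _ => ?_
    rw [mul_smul_comm, Polynomial.coeff_smul, smul_eq_mul]
  rw [e2, map_sum]
  simp only [e3, Finset.mul_sum]
  rw [Finset.sum_comm]
  refine Finset.sum_congr rfl fun n hn => ?_
  rw [map_smul, smul_eq_mul, key ha X M n (Nat.lt_succ_iff.1 (Finset.mem_range.1 hn)),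
    Finset.mul_sum]
  exact Finset.sum_congr rfl fun s _ => by ring

/-- F1: the inner product with a derivative depends on `a * rv d a` only. -/
theorem ip_deriv {d : ℕ} {a b : ℂ[X]} (ha : a.natDegree ≤ d) (hb : b.natDegree ≤ d) {t : ℂ}
    (h : a * rv d a = C t * (b * rv d b)) (P : ℂ[X]) (X : PowerSeries ℂ) :
    ip ((a : PowerSeries ℂ) * X) (derivative (a * P)) =
      t * ip ((b : PowerSeries ℂ) * X) (derivative (b * P)) := by
  set M := max (a * P).natDegree (b * P).natDegree with hM
  rw [expand ha X (M := M) (le_max_left _ _), expand hb X (M := M) (le_max_right _ _),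
    Finset.mul_sum]
  refine Finset.sum_congr rfl fun s _ => ?_
  have e1 : rv d a * (a * P) = C t * (rv d b * (b * P)) := by
    have e2 : rv d a * (a * P) = (a * rv d a) * P := by ring
    rw [e2, h]
    ring
  rw [e1, Polynomial.coeff_C_mul]
  ring

end Pool.Agent.Helper23.KU
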